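import Pool.Agent.Lib.GH76.Pshp

/-! Project rb9: bounded quasi-plurisubharmonic functions form a precompact family in the mean. -/

open scoped Classical Topology ENNReal ContDiff ComplexOrder Matrix
open Set MeasureTheory Complex Metric Filter

noncomputable section

namespace Pool.Agent.Lib.RB14

open Pool.Agent.Lib.SV (E)
open Pool.Agent.Lib.HS32 Pool.Agent.Lib.HS66 Pool.Agent.Lib.GH76

variable {n : ℕ}

/-- A continuous extension with compact support. -/
theorem ext4 {w : E n → ℝ} {B : ℝ} (hw0 : ContinuousOn w (closedBall 0 4))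
    (hb : ∀ z ∈ closedBall (0 : E n) 4, -B ≤ w z ∧ w z ≤ 0) : ∃ W : E n → ℝ, Continuous W ∧
      (∀ z, -B ≤ W z ∧ W z ≤ 0) ∧ (∀ z ∈ closedBall (0 : E n) 3, W z = w z) ∧
      ∀ z ∉ closedBall (0 : E n) 6, W z = 0 := by
  have hm : ∀ z : E n, 0 < max 4 ‖z‖ := fun z => lt_max_of_lt_left (by norm_num)
  have h1 : ∀ z : E n, (4 / max 4 ‖z‖) • z ∈ closedBall (0 : E n) 4 := fun z => by
    rw [mem_closedBall_zero_iff, norm_smul, Real.norm_of_nonneg (div_pos four_pos (hm z)).le,
      div_mul_eq_mul_div, div_le_iff₀ (hm z)]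
    exact mul_le_mul_of_nonneg_left (le_max_right _ _) (by norm_num)
  have h2 : ∀ z : E n, ‖(3⁻¹ : ℝ) • z‖ = 3⁻¹ * ‖z‖ := fun z => by
    rw [norm_smul, Real.norm_of_nonneg (by norm_num)]
  refine ⟨fun z => cut ((3⁻¹ : ℝ) • z) * w ((4 / max 4 ‖z‖) • z),
    (cut_cont.comp (continuous_const_smul _)).mul (hw0.comp_continuous
      ((continuous_const.div (by fun_prop) fun z => (hm z).ne').smul continuous_id) h1),
    fun z => ?_, fun z hz => ?_, fun z hz => ?_⟩
  · have h3 : cut ((3⁻¹ : ℝ) • z) ≤ 1 := max_le zero_le_one (min_le_left _ _)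
    have h4 := cut_nn ((3⁻¹ : ℝ) • z)
    obtain ⟨h5, h6⟩ := hb _ (h1 z)
    constructor <;> nlinarith
  · rw [mem_closedBall_zero_iff] at hz
    beta_reduce
    rw [cut_one (by rw [h2]; linarith), max_eq_left (by linarith), div_self four_ne_zero, one_smul,
      one_mul]
  · rw [mem_closedBall_zero_iff, not_le] at hz
    exact mul_eq_zero_of_left (cut_zero (by rw [h2]; linarith)) _

theorem cpt_loc {ι : Type} (l : Ultrafilter ι) {A B η : ℝ} (hA : 0 ≤ A) (hB : 0 ≤ B) (hη : 0 < η)
    (w : ι → E n → ℝ) (hw : ∀ i, ∀ z ∈ closedBall (0 : E n) 4, ContDiffAt ℝ 2 (w i) z ∧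
      (-B ≤ w i z ∧ w i z ≤ 0) ∧ ∀ v, -(A * ‖v‖ ^ 2) ≤ lv (w i) z v) :
    ∃ S ∈ l, ∀ i ∈ S, ∀ j ∈ S, ∫ z in ball (0 : E n) 1, |w i z - w j z| ≤ η := by
  obtain ⟨g, hgs, hg⟩ := exists_ker (n := n) one_pos
  obtain ⟨K₀, hK₀⟩ := ContDiff.lipschitzWith_of_hasCompactSupport hg.cpt
    (hgs.of_le (by simp) : ContDiff ℝ 1 g) one_ne_zero
  have hw0 : ∀ i, ContinuousOn (w i) (closedBall 0 4) := fun i z hz =>
    (hw i z hz).1.continuousAt.continuousWithinAt
  choose W hW hWb hWw hW0 using fun i => ext4 (hw0 i) fun z hz => (hw i z hz).2.1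
  have hX := cut_int (n := n) (W := fun _ => 1) continuous_const 0
  simp only [add_zero, mul_one] at hX
  have hX0 : 0 ≤ ∫ x : E n, cut x := integral_nonneg cut_nn
  have hI : ∀ i (r : ℝ), ∫ z in closedBall (0 : E n) r, -W i z ≤
      volume.real (closedBall (0 : E n) r) * B := fun i r => by
    rw [← smul_eq_mul, ← setIntegral_const]
    exact setIntegral_mono_on ((hW i).neg.continuousOn.integrableOn_compact
      (isCompact_closedBall 0 r)) (integrableOn_const measure_closedBall_lt_top.ne)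
      measurableSet_closedBall fun z _ => by linarith [(hWb i z).1]
  obtain ⟨K, hK⟩ : ∃ K, K = volume.real (closedBall (0 : E n) 3) * B + A / 4 * ∫ x : E n, cut x :=
    ⟨_, rfl⟩
  have hK0 : 0 ≤ K := by rw [hK]; positivity
  obtain ⟨s, hs0, hs1, hsK⟩ : ∃ s : ℝ, 0 < s ∧ s ≤ 1 ∧ s * K ≤ η / 4 :=
    ⟨min 1 (η / 4 / (K + 1)), by positivity, min_le_left _ _, by
      have := (le_div_iff₀ (by positivity : 0 < K + 1)).1 (min_le_right 1 (η / 4 / (K + 1)))
      have h2 : 0 < min 1 (η / 4 / (K + 1)) := by positivity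
      linarith⟩
  obtain ⟨F, hF⟩ : ∃ F : ι → E n → ℝ, ∀ i x, F i x = ∫ t, g t • W i (x - s • t) := ⟨_, fun _ _ => rfl⟩
  have hFb : ∀ i x, ‖F i x‖ ≤ B := fun i x => by
    have := norm_integral_le_of_norm_le (μ := volume) (f := fun t => g t • W i (x - s • t))
      (hg.integrable.mul_const B) (.of_forall fun t => by
        rw [norm_smul, Real.norm_of_nonneg (hg.nn t)]
        exact mul_le_mul_of_nonneg_left (abs_le.2 ⟨(hWb i _).1, (hWb i _).2.trans hB⟩) (hg.nn t))
    rwa [integral_mul_const, hg.int, one_mul, ← hF] at this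
  have hFl : ∀ i x y, ‖F i x - F i y‖ ≤ ((s ^ Module.finrank ℝ (E n))⁻¹ * (K₀ * s⁻¹) *
      (volume.real (closedBall (0 : E n) 6) * B)) * dist x y := fun i x y => by
    have hc : HasCompactSupport (W i) := HasCompactSupport.intro (isCompact_closedBall 0 6) (hW0 i)
    have hgc := hg.cont
    have hi : ∀ x : E n, Integrable fun z =>
        (s ^ Module.finrank ℝ (E n))⁻¹ * g (s⁻¹ • (x - z)) * W i z := fun x =>
      Continuous.integrable_of_hasCompactSupport (by have := hW i; fun_prop) hc.mul_left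
    have h1 := hI i 6
    rw [setIntegral_eq_integral_of_forall_compl_eq_zero fun z hz => by rw [hW0 i z hz, neg_zero]]
      at h1
    rw [hF, hF, ← BPSH.scale g _ x hs0, ← BPSH.scale g _ y hs0, ← integral_sub (hi x) (hi y),
      mul_right_comm]
    refine le_trans ?_ (mul_le_mul_of_nonneg_left h1 (by positivity))
    rw [← integral_const_mul]
    refine norm_integral_le_of_norm_le
      (((hW i).integrable_of_hasCompactSupport hc).neg.const_mul _) (.of_forall fun z => ?_)
    have h2 := hK₀.dist_le_mul (s⁻¹ • (x - z)) (s⁻¹ • (y - z))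
    rw [dist_smul₀, dist_sub_right, Real.norm_of_nonneg (inv_pos.2 hs0).le, ← mul_assoc,
      Real.dist_eq] at h2
    rw [← sub_mul, ← mul_sub, Real.norm_eq_abs, abs_mul, abs_mul, abs_of_nonpos (hWb i z).2,
      abs_of_nonneg (by positivity), mul_assoc _ _ (dist x y)]
    exact mul_le_mul_of_nonneg_right (mul_le_mul_of_nonneg_left h2 (by positivity))
      (neg_nonneg.2 (hWb i z).2)
  obtain ⟨p, -, hp⟩ := ulim l hFb hFl
  have hu := (tendstoLocallyUniformlyOn_iff_tendstoUniformlyOn_of_compact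
    (isCompact_closedBall (0 : E n) 1)).1 (hp.mono (subset_univ _))
  obtain ⟨V, hV⟩ : ∃ V, V = volume.real (ball (0 : E n) 1) := ⟨_, rfl⟩
  have hV0 : 0 ≤ V := hV ▸ measureReal_nonneg
  refine ⟨_, Metric.tendstoUniformlyOn_iff.1 hu (η / 4 / (V + 1)) (by positivity),
    fun i hi j hj => ?_⟩
  obtain ⟨D, hD⟩ : ∃ D : ι → E n → ℝ, ∀ i x, D i x = (cut x * ∫ t, g t • W i (x - s • t)) -
    cut x * W i x + A * s ^ 2 / 4 * cut x := ⟨_, fun _ _ => rfl⟩
  have hWi := fun i => cut_int (hW i) 0
  simp only [add_zero] at hWi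
  have hA1 := fun i => avg_l1 hg (hW i) (fun z _ => (hWb i z).2) ⟨hs0.le, hs1⟩
  have hDi : ∀ i, Integrable (D i) := fun i => by
    rw [funext (hD i)]
    exact ((hA1 i).1.sub (hWi i)).add (hX.const_mul _)
  have hD0 : ∀ i x, 0 ≤ D i x := fun i x => by
    by_cases hx : ‖x‖ ≤ 2
    · have h1 := submean_s hg (x := x) hA (fun z hz =>
        let a := hw i z (by
          rw [mem_closedBall] at hz ⊢
          linarith [dist_triangle z x 0, dist_zero_right x])
        ⟨a.1, a.2.2⟩) ⟨hs0.le, hs1⟩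
      have h2 : ∫ t, g t • W i (x - s • t) = ∫ t, g t • w i (x - s • t) :=
        integral_congr_ae (.of_forall fun t => by
          by_cases h : g t = 0
          · simp [h]
          have h2 : ‖s • t‖ ≤ 1 := by
            rw [norm_smul, Real.norm_of_nonneg hs0.le]
            exact mul_le_one₀ hs1 (norm_nonneg _) (hg.supp t h)
          simp only [hWw i (x - s • t)
            (mem_closedBall_zero_iff.2 ((norm_sub_le _ _).trans (by linarith)))])
      rw [hD, h2, hWw i x (mem_closedBall_zero_iff.2 (by linarith))]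
      nlinarith [cut_nn x]
    · simp [hD, cut_zero (not_le.1 hx).le]
  have hDK : ∀ i, ∫ x in ball (0 : E n) 1, D i x ≤ η / 4 := fun i => by
    refine (setIntegral_le_integral (hDi i) (.of_forall (hD0 i))).trans ?_
    simp only [hD]
    have h0 : Integrable fun x => (cut x * ∫ t, g t • W i (x - s • t)) - cut x * W i x :=
      (hA1 i).1.sub (hWi i)
    rw [integral_add h0 (hX.const_mul _), integral_sub (hA1 i).1 (hWi i), integral_const_mul]
    have h1 := mul_le_mul_of_nonneg_left (hI i 3) hs0.le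
    have h2 : s ^ 2 ≤ s := by nlinarith
    have h3 := mul_le_mul_of_nonneg_left h2 (mul_nonneg hA hX0)
    have h4 := (hA1 i).2
    rw [hK] at hsK
    linarith
  have hb14 : ball (0 : E n) 1 ⊆ closedBall 0 4 :=
    ball_subset_closedBall.trans (closedBall_subset_closedBall (by norm_num))
  have hci : IntegrableOn (fun _ : E n => 2 * (η / 4 / (V + 1))) (ball 0 1) :=
    integrableOn_const measure_ball_lt_top.ne
  have hij : IntegrableOn (fun x => D i x + D j x) (ball (0 : E n) 1) :=
    ((hDi i).add (hDi j)).integrableOn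
  have h1 := setIntegral_mono_on (μ := volume) (f := fun z => |w i z - w j z|)
    (g := fun x => D i x + D j x + 2 * (η / 4 / (V + 1)))
    ((((hw0 i).sub (hw0 j)).abs.integrableOn_compact (isCompact_closedBall 0 4)).mono_set hb14)
    (hij.add hci) measurableSet_ball fun x hx => by
      have hx1 := (mem_ball_zero_iff.1 hx).le
      have a1 := abs_lt.1 (hi x (ball_subset_closedBall hx))
      have a2 := abs_lt.1 (hj x (ball_subset_closedBall hx))
      have a3 := hD i x
      have a4 := hD j x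
      rw [← hF, cut_one hx1, hWw _ x (mem_closedBall_zero_iff.2 (by linarith))] at a3 a4
      exact abs_le.2 ⟨by linarith [hD0 j x], by linarith [hD0 i x]⟩
  rw [integral_add hij hci, integral_add (hDi i).integrableOn (hDi j).integrableOn,
    setIntegral_const, ← hV, smul_eq_mul] at h1
  have h2 : η / 4 / (V + 1) * (V + 1) = η / 4 := div_mul_cancel₀ _ (by positivity)
  have h3 : 0 < η / 4 / (V + 1) := by positivity
  linarith [hDK i, hDK j]

/-- Precompactness in the mean. -/
theorem cpt (M : Mf n) [M.Cpt] {H : M.Fam (Mat n)} (hH : M.Met H) {ι : Type} (l : Ultrafilter ι)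
    {C₀ B η : ℝ} (hB : 0 ≤ B) (hη : 0 < η) (f : ι → M.X → ℝ) (hf : ∀ i, M.Sm (f i))
    (hp : ∀ i, M.Le 0 (C₀ • H + M.hs (f i))) (hb : ∀ i x, -B ≤ f i x ∧ f i x ≤ 0) :
    ∃ S ∈ l, ∀ i ∈ S, ∀ j ∈ S, ∫ x, |f i x - f j x| ∂M.mu H ≤ η := by
  obtain ⟨-, -, ⟨V, hV⟩, -⟩ := mCOV n M
  obtain ⟨-, hfin, -, -, hint, hch, -⟩ := mMU n M H hH
  obtain ⟨-, -, hB3, -⟩ := mBD n M H hH
  have hsub : ∀ a, closedBall (0 : E n) 4 ⊆ (V.e a).target := fun a => by
    simpa [(hV a).1, (hV a).2] using V.sub a
  have hb14 : ball (0 : E n) 1 ⊆ closedBall 0 4 :=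
    ball_subset_closedBall.trans (closedBall_subset_closedBall (by norm_num))
  choose K hK1 hK using fun a => hB3 _ (V.mem a) _ (isCompact_closedBall 0 4) (hsub a)
  have hK0 : ∀ a, 0 < K a := fun a => one_pos.trans_le (hK1 a)
  have hdet : ∀ a, ContinuousOn (fun z => (H (V.e a) z).det.re) (closedBall 0 4) := fun a z hz =>
    (cd_re (hH.sm _ (V.mem a) z (hsub a hz)).det).continuousAt.continuousWithinAt
  choose S hS h using fun a => cpt_loc l (A := 4 * (|C₀| * K a * n)) (η := η / (V.r + 1) / K a)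
    (by have := hK0 a; positivity) hB (by have := hK0 a; positivity)
    (fun i => f i ∘ (V.e a).symm) fun i z hz => by
      have h1 := hf i _ (V.mem a) z (hsub a hz)
      have h2 := hp i _ (V.mem a) z (hsub a hz)
      simp only [Pi.zero_apply, sub_zero] at h2
      exact ⟨cd_le h1 2, hb i _, BPSH.lv_ge h1 (hH.pos _ (V.mem a) z (hsub a hz)).posSemidef
        (hK0 a).le (hK a z hz).2.1 h2⟩
  refine ⟨⋂ a, S a, iInter_mem.2 hS, fun i hi j hj => ?_⟩
  have hi' := hint ℝ (fun x => |f i x - f j x|) ((hf i).sub (hf j)).continuous.abs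
  have h1 : ∀ a, ∫ x in (V.e a).symm '' ball 0 1, |f i x - f j x| ∂M.mu H ≤ η / (V.r + 1) :=
    fun a => by
      have h2 := (le_div_iff₀' (hK0 a)).1 (h a i (mem_iInter.1 hi a) j (mem_iInter.1 hj a))
      have hc : ContinuousOn (fun z => |f i ((V.e a).symm z) - f j ((V.e a).symm z)|)
          (closedBall 0 4) := fun z hz =>
        (((hf i).sub (hf j)) _ (V.mem a) z (hsub a hz)).continuousAt.continuousWithinAt.abs
      rw [(hch _ (V.mem a) _ measurableSet_ball (hb14.trans (hsub a))).2.2.1]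
      refine le_trans ?_ h2
      rw [← integral_const_mul]
      exact setIntegral_mono_on
        ((((hdet a).mul hc).integrableOn_compact (isCompact_closedBall 0 4)).mono_set hb14)
        (((hc.integrableOn_compact (isCompact_closedBall 0 4)).mono_set hb14).const_mul _)
        measurableSet_ball fun z hz => mul_le_mul_of_nonneg_right
          (hK a z (hb14 hz)).2.2.2 (abs_nonneg _)
  have hm := fun a => (hch _ (V.mem a) _ measurableSet_ball (hb14.trans (hsub a))).1
  have h2 : ∫ x, |f i x - f j x| ∂M.mu H ≤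
      ∑ a, ∫ x in (V.e a).symm '' ball 0 1, |f i x - f j x| ∂M.mu H := by
    simp only [← integral_indicator (hm _)]
    rw [← integral_finsetSum _ fun a _ => hi'.indicator (hm a)]
    refine integral_mono hi' (integrable_finsetSum _ fun a _ => hi'.indicator (hm a)) fun x => ?_
    obtain ⟨b, h3, h4, -⟩ := V.cov x
    have := Finset.single_le_sum (f := fun a => ((V.e a).symm '' ball 0 1).indicator
      (fun x => |f i x - f j x|) x)
      (fun a _ => indicator_nonneg (fun x _ => abs_nonneg _) x) (Finset.mem_univ b)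
    rwa [indicator_of_mem (show x ∈ (V.e b).symm '' ball 0 1 from
      ⟨_, by simpa [(hV b).1, (hV b).2] using h4, (V.e b).left_inv h3⟩)] at this
  have h3 := Finset.sum_le_card_nsmul _ _ _ fun a (_ : a ∈ Finset.univ) => h1 a
  simp only [Finset.card_univ, Fintype.card_fin, nsmul_eq_mul] at h3
  have h4 : η / (V.r + 1) * (V.r + 1) = η := div_mul_cancel₀ _ (by positivity)
  have h5 : 0 < η / (V.r + 1) := by positivity
  linarith

end Pool.Agent.Lib.RB14
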