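import Pool.Agent.Lib.HS32.MAll
import Pool.Agent.Lib.HS76.Pt

/-! Project rb9: integration by parts against the tensor `G⁻¹ h G⁻¹`. -/

open scoped Classical Topology ContDiff ComplexOrder Matrix
open Set MeasureTheory Complex Metric Filter

noncomputable section

namespace Pool.Agent.Lib.RB14

open Pool.Agent.Lib.SV (E)
open Pool.Agent.Lib.HS32 Pool.Agent.Lib.HS32.Mf Pool.Agent.Lib.HS76

variable {n : ℕ}

theorem alg {C h : Mat n} (hC : C.PosSemidef) (hh : h.PosSemidef) (D : Fin n → Mat n) (v : E n) :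
    ‖∑ j, ((C * (h * D j * C)) *ᵥ v) j‖ ^ 2 ≤
      (∑ k, ∑ l, C k l * (h * D k * C * (D l)ᴴ).trace).re *
        ((C * h).trace.re * (C * Matrix.vecMulVec v (star v)).trace.re) := by
  have a := ip3_cs hC hC hh D fun k => Matrix.vecMulVec (Pi.single k 1) (star v)
  have e : ∀ l : Fin n, (Matrix.vecMulVec (Pi.single l (1 : ℂ) : E n) (star v))ᴴ =
      Matrix.vecMulVec v (Pi.single l 1) := fun l => by
    rw [Matrix.conjTranspose_vecMulVec, star_star, Pi.star_single, star_one]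
  have e1 : ip3 C C h D (fun k => Matrix.vecMulVec (Pi.single k 1) (star v)) =
      ∑ j, ((C * (h * D j * C)) *ᵥ v) j := by
    rw [ip3_cyc]
    refine Finset.sum_congr rfl fun k _ => ?_
    simp only [e, Matrix.mul_vecMulVec, Matrix.trace_vecMulVec, dotProduct_single, mul_one]
    rw [← Matrix.mulVec_mulVec v C]
    rfl
  have e2 : ip3 C C h (fun k => Matrix.vecMulVec (Pi.single k 1) (star v))
      (fun k => Matrix.vecMulVec (Pi.single k 1) (star v)) =
      (C * h).trace * (C * Matrix.vecMulVec v (star v)).trace := by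
    rw [ip3_cyc]
    simp only [e, Matrix.mul_vecMulVec, Matrix.trace_vecMulVec, dotProduct_single, mul_one,
      ← Matrix.mulVec_mulVec, Matrix.vecMulVec_mulVec, Matrix.mulVec_single_one, Pi.smul_apply,
      Matrix.col_apply, Matrix.mulVec_smul, op_smul_eq_smul, smul_eq_mul]
    rw [dotProduct_comm (C *ᵥ v), Matrix.trace, Finset.sum_mul]
    refine Finset.sum_congr rfl fun k _ => ?_
    rw [Matrix.diag_apply, Matrix.mul_apply, Finset.sum_mul]
    exact Finset.sum_congr rfl fun l _ => by ring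
  have e3 : (C * h).trace = ((C * h).trace.re : ℂ) :=
    Complex.ext rfl (by simpa using (Complex.le_def.mp (tr_mul_nonneg hC hh)).2.symm)
  rwa [e1, e2, ip3_cyc, e3, re_ofReal_mul] at a

/-- The field whose divergence is the integrand. -/
def fld (G h : E n → Mat n) (u : E n → ℂ) (z : E n) : E n :=
  ((G z).adjugate * (h z * (G z)⁻¹)) *ᵥ fun i => dzb i u z

section euc

variable {G h : E n → Mat n} {u : E n → ℂ} {z : E n}

theorem fld_sm (hG : SmM G z) (hh : SmM h z) (h0 : (G z).det ≠ 0) (hu : ContDiffAt ℝ ∞ u z) :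
    ContDiffAt ℝ ∞ (fld G h u) z :=
  (hG.adjugate.mul (hh.mul (hG.inv h0))).mulVec (contDiffAt_pi.2 fun i => cd_dzb hu i)

theorem fld_dv (hG : SmM G z) (hh : SmM h z) (h0 : (G z).det ≠ 0) (h1 : (h z).det ≠ 0)
    (hc : ClM G z) (hu : ContDiffAt ℝ ∞ u z) :
    dv (fld G h u) z / (G z).det = ((G z)⁻¹ * h z * (G z)⁻¹ * hess u z).trace -
      ∑ j, (((G z)⁻¹ * (h z * df G h j z * (G z)⁻¹)) *ᵥ fun i => dzb i u z) j := by
  have hX := hh.mul (hG.inv h0)
  have hA := hG.adjugate.mul hX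
  have c0 := (mCOF n G z hG).2.2.2.1 hc
  have c1 := ((mCOF n G z hG).2.2.2.2.1 h0).2
  have e1 : ∀ j, dM j (fun w => h w * (G w)⁻¹) z = -(h z * df G h j z * (G z)⁻¹) := fun j => by
    rw [dM_mul hh (hG.inv h0), (c1 j).1, df, gam, gam, mul_sub, sub_mul,
      Matrix.mul_nonsing_inv_cancel_left _ _ h1.isUnit]
    simp only [mul_neg, mul_assoc]
    abel
  have e2 : ∀ j, dz j (fun w => fld G h u w j) z =
      (dM j (fun w => (G w).adjugate) z *ᵥ ((h z * (G z)⁻¹) *ᵥ fun i => dzb i u z)) j -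
      (((G z).adjugate * (h z * df G h j z * (G z)⁻¹)) *ᵥ fun i => dzb i u z) j +
      ((G z).adjugate * (h z * (G z)⁻¹) * hess u z) j j := fun j => by
    have a := dM_mul (k := j) hG.adjugate hX
    rw [e1, mul_neg, ← sub_eq_add_neg] at a
    rw [Matrix.mulVec_mulVec, ← Pi.sub_apply, ← Matrix.sub_mulVec, ← a, Matrix.mul_apply]
    simp only [fld, Matrix.mulVec, dotProduct]
    rw [dz_sum fun i _ => (hA.diff j i).fun_mul (cd_diff (cd_dzb hu i)), ← Finset.sum_add_distrib]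
    refine Finset.sum_congr rfl fun i _ => ?_
    rw [dz_mul (hA.diff j i) (cd_diff (cd_dzb hu i)), dz_dzb hu]
    rfl
  have e3 : ∀ c : E n, ∑ j, (dM j (fun w => (G w).adjugate) z *ᵥ c) j = 0 := fun c => by
    simp only [Matrix.mulVec, dotProduct]
    rw [Finset.sum_comm]
    simp only [← Finset.sum_mul, c0, zero_mul, Finset.sum_const_zero]
  have e4 : (G z).adjugate = (G z).det • (G z)⁻¹ := by
    rw [Matrix.inv_def, Ring.inverse_eq_inv', smul_smul, mul_inv_cancel₀ h0, one_smul]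
  rw [div_eq_iff h0, dv]
  simp only [e2, Finset.sum_add_distrib, Finset.sum_sub_distrib, e3]
  simp only [e4, Matrix.smul_mul, Matrix.smul_mulVec, Pi.smul_apply, Matrix.smul_apply,
    smul_eq_mul, ← Finset.mul_sum, Matrix.trace, Matrix.diag_apply, mul_assoc]
  ring

end euc

variable {M : Mf n} {G h : M.Fam (Mat n)} {u : M.X → ℝ}

theorem vden (hG : M.Met G) (hh : M.Ten h) (hu : M.Sm u) :
    M.VDen fun e => fld (G e) (h e) (M.lc u e) := by
  refine ⟨fun e he z hz => fld_sm (hG.sm e he z hz) (hh.sm e he z hz) (hG.det_ne e he z hz)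
    (hu.lc e he z hz), fun e he e' he' x hx hx' => ?_⟩
  obtain ⟨hH, hJ, -, hev, -⟩ := (mTR n M).2.1 e he e' he' x hx hx'
  have hψ : (e ∘ e'.symm) (e' x) = e x := by simp [e'.left_inv hx']
  have hch := (mCHN n _ _ hH).2.2.2.2.2.2.2.2.2.1 (M.lc u e)
    (by rw [hψ]; exact cd_diff (hu.lc e he _ (e.map_source hx)))
  have heq : M.lc u e' =ᶠ[𝓝 (e' x)] M.lc u e ∘ (e ∘ e'.symm) := by
    filter_upwards [hev] with y hy
    simp only [Mf.lc, Function.comp_apply, hy.2.2.2.2.1]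
  have hb : (fun i => dzb i (M.lc u e') (e' x)) =
      (M.J e e' x)ᴴ *ᵥ fun a => dzb a (M.lc u e) (e x) := by
    funext i
    rw [dzb_congr heq, (hch i).2, hψ]
    simp only [Matrix.mulVec, dotProduct, Matrix.conjTranspose_apply, Mf.J]
    exact Finset.sum_congr rfl fun a _ => mul_comm _ _
  have hJ' : (M.J e e' x)ᴴ.det ≠ 0 := by
    rw [Matrix.det_conjTranspose]
    exact star_ne_zero.2 hJ
  have a : h e' (e' x) * (G e' (e' x))⁻¹ * (M.J e e' x)ᴴ =
      (M.J e e' x)ᴴ * (h e (e x) * (G e (e x))⁻¹) := by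
    rw [hG.cmp e he e' he' x hx hx', hh.cmp e he e' he' x hx hx', Matrix.mul_inv_rev,
      Matrix.mul_inv_rev]
    simp only [mul_assoc]
    rw [Matrix.mul_nonsing_inv_cancel_left _ _ hJ.isUnit, Matrix.nonsing_inv_mul _ hJ'.isUnit,
      mul_one]
  simp only [fld]
  rw [hb, ← Matrix.mulVec_mulVec _ (G e' (e' x)).adjugate, Matrix.mulVec_mulVec _ (_ * _⁻¹), a,
    ← Matrix.mulVec_mulVec _ (M.J e e' x)ᴴ, hG.cmp e he e' he' x hx hx', BGRN.alg,
    Matrix.mulVec_mulVec]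

theorem amgm {a p q t : ℝ} (ht : 0 < t) (hp : 0 ≤ p) (hq : 0 ≤ q) (h : a ^ 2 ≤ p * q) :
    a ≤ t * p + t⁻¹ * q := by
  have h1 : 0 ≤ t * p := mul_nonneg ht.le hp
  have h2 : 0 ≤ t⁻¹ * q := mul_nonneg (inv_pos.2 ht).le hq
  have h3 : t * p * (t⁻¹ * q) = p * q := by field_simp
  exact (abs_le_of_sq_le_sq' (by nlinarith [sq_nonneg (t * p), sq_nonneg (t⁻¹ * q)])
    (add_nonneg h1 h2)).2

/-- Integration by parts. -/
theorem divq [hM : M.Cpt] (hG : M.Kae G) (hh : M.Met h) (hu : M.Sm u) {Y : M.X → ℝ}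
    (hY : Continuous Y) (hE : M.All fun e z => (en (G e) (h e) (h e) z).re ≤ Y (e.symm z))
    {t : ℝ} (ht : 0 < t) : ∫ x, M.ip G h (M.hs u) x ∂M.mu G ≤
      t * ∫ x, Y x ∂M.mu G + t⁻¹ * ∫ x, M.tr G h x * M.gr G u u x ∂M.mu G := by
  have hm := hG.toMet
  obtain ⟨-, hS, hZ⟩ := (mDIV n M G hm).2.1 _ (vden hm hh.toTen hu)
  have hi := (mMU n M G hm).2.2.2.2.1
  have i0 := hi ℂ _ hS.continuous
  have h1 := integral_re i0
  rw [hZ hM, map_zero] at h1
  have i1 := hi ℝ _ hY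
  have i2 := hi ℝ _ (((mINV n M G hm).1 h hh.toTen).2.1.mul
    ((mLAP n M u u hu hu).2.2 G hm).2.1).continuous
  have i3 := hi ℝ _ ((mINV n M G hm).2.2.1 h _ hh.toTen ((mHES n M).1 u hu).toTen).2.1.continuous
  have i4 : Integrable (fun x => t * Y x + t⁻¹ * (M.tr G h x * M.gr G u u x)) (M.mu G) :=
    (i1.const_mul _).add (i2.const_mul _)
  rw [← integral_const_mul, ← integral_const_mul, ← integral_add (i1.const_mul _) (i2.const_mul _),
    ← zero_add (∫ x, t * Y x + _ ∂_), ← h1, ← integral_add i0.re i4]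
  refine integral_mono i3 (i0.re.add i4) fun x => ?_
  have q1 := fld_dv (AllOn.ch hG.sm x) (AllOn.ch hh.sm x) (hm.ev_det x) (hh.ev_det x)
    (AllOn.ch hG.cl x) (AllOn.ch hu.lc x)
  have q2 := alg (hm.ev_pos x).inv.posSemidef (hh.ev_pos x).posSemidef
    (fun j => df (G (M.ch x)) (h (M.ch x)) j (M.ch x x)) fun i => dzb i (M.lc u (M.ch x)) (M.ch x x)
  have q3 := AllOn.ch hE x
  rw [ch_symm] at q3
  have q4 : Matrix.vecMulVec (fun i => dzb i (M.lc u (M.ch x)) (M.ch x x))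
      (star fun i => dzb i (M.lc u (M.ch x)) (M.ch x x)) = M.ev (M.ds u u) x := by
    ext i j
    exact congrArg (_ * ·) (star_dzb_ofReal (cd_diff (AllOn.ch hu.lc x)))
  rw [q4] at q2
  have q5 : 0 ≤ M.tr G h x * M.gr G u u x := mul_nonneg (hm.tr_nonneg hh.nonneg x)
    (hm.tr_nonneg ((mHES n M).2.2.1 u hu).2 x)
  have q6 : 0 ≤ (en (G (M.ch x)) (h (M.ch x)) (h (M.ch x)) (M.ch x x)).re := by
    have := ip3_nonneg (hm.ev_pos x).inv.posSemidef (hm.ev_pos x).inv.posSemidef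
      (hh.ev_pos x).posSemidef fun j => df (G (M.ch x)) (h (M.ch x)) j (M.ch x x)
    rwa [ip3_cyc] at this
  have q7 := (re_le_norm _).trans (amgm ht (q6.trans q3) q5
    (q2.trans (mul_le_mul_of_nonneg_right q3 q5)))
  have q8 := congrArg re q1
  rw [sub_re] at q8
  exact (eq_add_of_sub_eq q8.symm).le.trans (add_le_add le_rfl q7)

end Pool.Agent.Lib.RB14
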