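import Pool.Agent.Lib.RB14.Ts
import Pool.Agent.Lib.RB14.Cpt
import Pool.Agent.Lib.GH.B_GPHI
import Pool.Agent.Lib.HS.B_VOL

/-! Project rb9: the mean value of the gradient and curvature terms tends to zero along a
sequence of solutions. -/

open scoped Classical Topology ContDiff ComplexOrder Matrix
open Set MeasureTheory Complex Metric Filter

noncomputable section

namespace Pool.Agent.Lib.RB14

open Pool.Agent.Lib.SV (E)
open Pool.Agent.Lib.HS32 Pool.Agent.Lib.HS32.Mf Pool.Agent.Lib.HS76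

variable {n : ℕ} {M : Mf n} {H h : M.Fam (Mat n)}

theorem dens_psh {u : M.X → ℝ} {C D V : ℝ} (hH : M.Met H) (hu : M.Sm u) (hC : 0 ≤ C) (hV : 0 < V)
    (h1 : M.Le 0 (C • H + M.hs u)) (h2 : ∀ x, Real.exp (u x) / V ≤ D) :
    M.Sm (fun x => Real.exp (u x) / V - D) ∧
      M.Le 0 ((D * C) • H + M.hs fun x => Real.exp (u x) / V - D) := by
  have d : ∀ t, HasDerivAt (fun t => Real.exp t / V) (Real.exp t / V) t := fun t =>
    (Real.hasDerivAt_exp t).div_const V
  have d1 : deriv (fun t => Real.exp t / V - D) = fun t => Real.exp t / V :=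
    funext fun t => ((d t).sub_const D).deriv
  obtain ⟨s, a⟩ := (mLAP n M u u hu hu).2.1 (fun t => Real.exp t / V - D) fun x =>
    ((Real.contDiff_exp.div_const V).sub contDiff_const).contDiffAt
  refine ⟨s, fun e he z hz => ?_⟩
  have p : 0 ≤ Real.exp (u (e.symm z)) / V := by positivity
  have b := ((psd_rsmul (h1 e he z hz) p).add (psd_rsmul (((mHES n M).2.2.1 u hu).2 e he z hz) p)).add
    (psd_rsmul (hH.pos e he z hz).posSemidef (mul_nonneg (sub_nonneg.2 (h2 (e.symm z))) hC))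
  simp only [Pi.add_apply, Pi.smul_apply, Pi.zero_apply, sub_zero] at b ⊢
  rw [(a e he z hz).1, d1, (d _).deriv]
  refine (congrArg Matrix.PosSemidef ?_).mp b
  module

variable [M.Cpt]

theorem small (hA : HS.St_AUBIN) (hn : 0 < n) (hH : M.Kae H) (hh : M.Met h) (hc : M.CLh h)
    (hE : ∀ G, M.Kae G → M.All fun e z => (en (G e) (h e) (h e) z).re ≤
      M.lap G (M.tr G h) (e.symm z) - M.ip G h (M.ric G) (e.symm z)) {η : ℝ} (hη : 0 < η) :
    ∃ ε u, ε ∈ Ioc (0 : ℝ) 1 ∧ ε ≤ η ∧ M.Sol H ε u ∧ M.av H ε u (M.yq H h ε u) ≤ η := by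
  have hV := HS.st_VOL mTR mINV mHES mMU mCOH
  have hm := hH.toMet
  obtain ⟨C, hC, hS⟩ := RB.schwarz hn hm hh hc
  obtain ⟨D, hD, hP⟩ := GH.st_GPHI hV n M H hn hH
  obtain ⟨C₀, hC₀, h0, -⟩ := (mBD n M H hm).1 _ ((mHES n M).2.2.2.2.2.2.2.2.1 H hm).neg.toForm
  obtain ⟨e, he⟩ : ∃ e : ℕ → ℝ, ∀ j, e j = 1 / ((j : ℝ) + 1) := ⟨_, fun _ => rfl⟩
  have e0 : ∀ j, 0 < e j := fun j => by rw [he]; positivity
  have e1 : ∀ j, e j ≤ 1 := fun j => by
    rw [he, div_le_one (by positivity)]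
    linarith [j.cast_nonneg (α := ℝ)]
  have et : Tendsto e atTop (𝓝 0) := by
    rw [funext he]
    exact tendsto_one_div_add_atTop_nhds_zero_nat
  choose u u1 u2 u3 using fun j => RB.nef hA hn hH hh hc _ (hH.smul (e0 j))
  have hu : ∀ j, M.Sol H (e j) (u j) := fun j => ⟨u1 j, u2 j, u3 j⟩
  have hs := fun j => hS _ _ _ (e0 j) (u2 j) (Le.refl _) (RB.ric_sol hm (u2 j).toMet (u3 j))
  have hv := fun j => (hV n M H hH).1 _ _ (hu j)
  have hb := fun j => (hP _ ⟨e0 j, e1 j⟩ _ (hu j)).2.2.choose_spec.2.2.1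
  have hi := (mMU n M H hm).2.2.2.2.1
  have hq := fun j => dens_psh (C := 1 + C₀) hm (u1 j) (by linarith) (hv j).2.2.2.1
    (fun a ha z hz => by
      have b := ((u2 j).pos a ha z hz).posSemidef.add ((h0 a ha z hz).add
        (psd_rsmul (hm.pos a ha z hz).posSemidef (sub_nonneg.2 (e1 j))))
      simp only [Pi.add_apply, Pi.sub_apply, Pi.smul_apply, Pi.neg_apply, Pi.zero_apply,
        sub_zero] at b ⊢
      refine (congrArg Matrix.PosSemidef ?_).mp b
      module) (hb j)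
  obtain ⟨s, hs'⟩ : ∃ s : ℕ → M.X → ℝ, ∀ j x, s j x = e j * M.tr (M.gE H (e j) (u j)) h x :=
    ⟨_, fun _ _ => rfl⟩
  obtain ⟨m, hm'⟩ : ∃ m : ℕ → M.X → ℝ, ∀ j x, m j x = Real.exp (u j x) / M.vol H (e j) :=
    ⟨_, fun _ _ => rfl⟩
  have s0 : ∀ j x, 0 ≤ s j x ∧ s j x ≤ C := fun j x => by
    rw [hs']
    exact ⟨mul_nonneg (e0 j).le ((u2 j).toMet.tr_nonneg hh.nonneg x), (hs j).1 x⟩
  have sc : ∀ j, Continuous (s j) := fun j => by
    rw [funext (hs' j)]
    exact ((hc _ (u2 j)).1.const_mul _).continuous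
  have mc : ∀ j, Continuous (m j) := fun j => by
    rw [funext (hm' j)]
    exact (u1 j).exp.continuous.div_const _
  have m0 : ∀ j x, 0 ≤ m j x := fun j x => by
    rw [hm']
    exact div_nonneg (Real.exp_pos _).le (hv j).2.2.2.1.le
  have m1 : ∀ j, ∫ x, m j x ∂M.mu H = 1 := fun j => by
    simp only [hm', integral_div, (hv j).2.1, div_self (hv j).2.2.2.1.ne']
  have hC0 : 0 < C := one_pos.trans_le hC
  obtain ⟨κ, hκ, hκ'⟩ : ∃ κ : ℝ, 0 < κ ∧ 4 * ((C + 2) * κ) = η / 2 :=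
    ⟨η / 8 / (C + 2), by positivity, by field_simp; ring⟩
  have hl : (hyperfilter ℕ : Filter ℕ) ≤ atTop := Nat.hyperfilter_le_atTop
  obtain ⟨S, hS1, hS2⟩ := cpt M hm (hyperfilter ℕ) hD.le hκ _ (fun j => (hq j).1)
    (fun j => (hq j).2) fun j x => ⟨by linarith [m0 j x, hm' j x], sub_nonpos.2 (hb j x)⟩
  obtain ⟨a, -, ha⟩ := (isCompact_Icc (a := (0 : ℝ)) (b := C)).ultrafilter_le_nhds
    ((hyperfilter ℕ).map fun j => ∫ x, s j x * m j x ∂M.mu H)
    (le_principal_iff.2 (mem_map.2 (univ_mem' fun j => ⟨integral_nonneg fun x =>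
      mul_nonneg (s0 j x).1 (m0 j x), by
        rw [← mul_one C, ← m1 j, ← integral_const_mul]
        exact integral_mono (hi ℝ _ ((sc j).mul (mc j))) (hi ℝ _ ((mc j).const_mul C)) fun x =>
          mul_le_mul_of_nonneg_right (s0 j x).2 (m0 j x)⟩)))
  have hA1 : ∀ᶠ j in (hyperfilter ℕ : Filter ℕ), j ∈ S ∧ |∫ x, s j x * m j x ∂M.mu H - a| < κ :=
    (show ∀ᶠ j in (hyperfilter ℕ : Filter ℕ), j ∈ S from hS1).and
      (Metric.tendsto_nhds.1 ha κ hκ)
  obtain ⟨i, hi1, hi2⟩ := hA1.exists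
  have t1 : Tendsto (fun j => e i / e j) atTop atTop := by
    simp only [he, div_div_eq_mul_div, div_one]
    exact (tendsto_atTop_add_const_right _ 1 tendsto_natCast_atTop_atTop).const_mul_atTop
      (by positivity)
  have t2 : Tendsto (fun σ : ℝ => 16 * (n * C) ^ 2 * (Real.log (σ * C) / σ)) atTop (𝓝 0) := by
    have a1 := (Real.isLittleO_log_id_atTop.tendsto_div_nhds_zero.comp
      (tendsto_id.atTop_mul_const hC0)).const_mul (16 * (n * C) ^ 2 * C)
    rw [mul_zero] at a1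
    refine a1.congr' ((eventually_gt_atTop 0).mono fun σ hσ => ?_)
    simp only [Function.comp_apply, id]
    field_simp
  obtain ⟨j, ⟨hj1, hj2⟩, hj3, hj4, hj5⟩ := (hA1.and (hl ((t1.eventually_ge_atTop 2).and
    (((t2.comp t1).eventually (eventually_le_nhds (half_pos hη))).and
      (et.eventually (eventually_le_nhds hη)))))).exists
  have σe : e i / e j * e j = e i := div_mul_cancel₀ _ (e0 j).ne'
  have V0 := (hv j).2.2.2.1
  have key := ts hm hh (e0 j) hj3 hC (hu j) (σe.symm ▸ hu i) (hs j).2 (hs j).1 (hE _ (u2 j))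
    (η := (C + 2) * κ) (by positivity) (by
      rw [σe, (hv j).2.2.2.2, (hv j).2.2.1, ← div_le_iff₀ V0, ← integral_div]
      simp only [← hs', mul_div_assoc, ← hm']
      have b1 := hS2 i hi1 j hj1
      simp only [← hm', sub_sub_sub_cancel_right] at b1
      have i1 : Integrable (fun x => s i x * m i x) (M.mu H) := hi ℝ _ ((sc i).mul (mc i))
      have i2 : Integrable (fun x => s j x * m j x) (M.mu H) := hi ℝ _ ((sc j).mul (mc j))
      have i3 := hi ℝ _ (((mc i).sub (mc j)).abs.const_mul C)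
      have i4 : Integrable (fun x => s i x * m i x - s j x * m j x) (M.mu H) := i1.sub i2
      have b2 := integral_mono (hi ℝ _ (((sc i).sub (sc j)).mul (mc j))) (i4.add i3) fun x => by
        have c2 := mul_le_mul_of_nonneg_left (neg_le_abs (m i x - m j x)) (s0 i x).1
        have c3 := mul_le_mul_of_nonneg_right (s0 i x).2 (abs_nonneg (m i x - m j x))
        simp only [Pi.add_apply, Pi.mul_apply, Pi.sub_apply]
        linarith
      simp only [Pi.add_apply, Pi.mul_apply, Pi.sub_apply] at b2 i3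
      rw [integral_add i4 i3, integral_sub i1 i2, integral_const_mul] at b2
      have b3 := mul_le_mul_of_nonneg_left b1 hC0.le
      linarith [abs_lt.1 hi2, abs_lt.1 hj2])
  refine ⟨e j, u j, ⟨e0 j, e1 j⟩, hj5, hu j, ?_⟩
  rw [av, ← (hv j).2.2.2.2, div_le_iff₀ V0]
  rw [(hv j).2.2.1] at key
  exact key.trans (mul_le_mul_of_nonneg_right (by
    simp only [Function.comp_apply] at hj4
    linarith) V0.le)

/-- The good sequence. -/
theorem seq (hA : HS.St_AUBIN) (hn : 0 < n) (hH : M.Kae H) (hh : M.Met h) (hc : M.CLh h)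
    (hE : ∀ G, M.Kae G → M.All fun e z => (en (G e) (h e) (h e) z).re ≤
      M.lap G (M.tr G h) (e.symm z) - M.ip G h (M.ric G) (e.symm z)) :
    ∃ (ε : ℕ → ℝ) (u : ℕ → M.X → ℝ), (∀ j, ε j ∈ Ioc (0 : ℝ) 1) ∧ Tendsto ε atTop (𝓝 0) ∧
      (∀ j, M.Sol H (ε j) (u j)) ∧
      ∀ j, M.av H (ε j) (u j) (M.yq H h (ε j) (u j)) ≤ 1 / ((j : ℝ) + 1) := by
  choose ε u h1 h2 h3 h4 using fun j : ℕ => small hA hn hH hh hc hE (η := 1 / ((j : ℝ) + 1))
    (by positivity)
  exact ⟨ε, u, h1, squeeze_zero (fun j => (h1 j).1.le) h2 tendsto_one_div_add_atTop_nhds_zero_nat,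
    h3, h4⟩

end Pool.Agent.Lib.RB14
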