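import Pool.Agent.Lib.RB14.Divq
import Pool.Agent.Lib.RB.Nef

/-! Project rb9: comparison of the solutions at two scales. -/

open scoped Classical Topology ContDiff ComplexOrder Matrix
open Set MeasureTheory Complex Metric Filter

noncomputable section

namespace Pool.Agent.Lib.HS32.Mf

/-- The quantity `ε (E + Q)` of the identity of Chern and Lu for the target metric `h`. -/
def yq {n : ℕ} (M : Mf n) (H h : M.Fam (Mat n)) (ε : ℝ) (u : M.X → ℝ) (x : M.X) : ℝ :=
  ε * (M.lap (M.gE H ε u) (M.tr (M.gE H ε u) h) x - M.ip (M.gE H ε u) h (M.ric (M.gE H ε u)) x)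

end Pool.Agent.Lib.HS32.Mf

namespace Pool.Agent.Lib.RB14

open Pool.Agent.Lib.SV (E)
open Pool.Agent.Lib.HS32 Pool.Agent.Lib.HS32.Mf Pool.Agent.Lib.HS76

variable {n : ℕ}

theorem opc {A B h : Mat n} (hA : A.PosDef) (hB : B.PosDef) (hh : h.PosSemidef) (σ : ℝ) :
    2 * σ * (A⁻¹ * h).trace.re - σ ^ 2 * (B⁻¹ * h).trace.re ≤ (A⁻¹ * h * A⁻¹ * B).trace.re := by
  have a := (Complex.le_def.mp (tr_mul_nonneg
    (hB.posSemidef.mul_mul_conjTranspose_same (A⁻¹ - σ • B⁻¹)) hh)).1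
  have hb := (pd_det_ne hB).isUnit
  rw [Matrix.conjTranspose_sub, Matrix.conjTranspose_smul, hA.inv.1.eq, hB.inv.1.eq, star_trivial]
    at a
  simp only [sub_mul, mul_sub, Matrix.smul_mul, Matrix.mul_smul, Matrix.nonsing_inv_mul _ hb,
    Matrix.mul_nonsing_inv_cancel_right _ _ hb, one_mul, Matrix.trace_sub, Matrix.trace_smul,
    sub_re, smul_re, smul_eq_mul, zero_re] at a
  have e : (A⁻¹ * h * A⁻¹ * B).trace = (A⁻¹ * B * A⁻¹ * h).trace := by
    rw [mul_assoc (A⁻¹ * h), Matrix.trace_mul_comm, mul_assoc (A⁻¹ * B)]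
  rw [e]
  linarith

variable {M : Mf n} {H h : M.Fam (Mat n)} {ε σ C : ℝ} {u v : M.X → ℝ}

theorem dq_eq (hH : M.Met H) (T : M.Fam (Mat n)) (x : M.X) :
    M.dq H T x = (M.ev T x).det.re / (M.ev H x).det.re := by
  rw [dq, ← div_ofReal_re, herm_det (hH.ev_pos x).1]

theorem hs_del (hu : M.Sm u) (hv : M.Sm v) : M.All fun e z => M.hs (fun x => v x - u x) e z =
    (M.gE H (σ * ε) v - M.gE H ε u - ((σ - 1) * ε) • H) e z := fun e he z hz => by
  simp only [gE, Pi.add_apply, Pi.sub_apply, Pi.smul_apply]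
  rw [((mLAP n M v u hv hu).1 0 e he z hz).2.2.1, sub_mul, one_mul, sub_smul]
  abel

variable [M.Cpt]

theorem del_bd (hH : M.Met H) (hε : 0 < ε) (hσ : 1 ≤ σ) (hC : 1 ≤ C) (hu : M.Sol H ε u)
    (hv : M.Sol H (σ * ε) v) (hle : M.Le ((ε / C) • H) (M.gE H ε u)) (x : M.X) :
    0 ≤ v x - u x ∧ v x - u x ≤ n * Real.log (σ * C) := by
  have hd := hv.sm.sub hu.sm
  have hL := fun y => ((mLAP n M _ _ hd hd).2.2 H hH).2.2.1 y 0
  have hD := fun y => AllOn.ch (hs_del (H := H) (σ := σ) (ε := ε) hu.sm hv.sm) y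
  have h0 : 0 ≤ (σ - 1) * ε := mul_nonneg (sub_nonneg.2 hσ) hε.le
  have hp := fun y => pd_det_re (hH.ev_pos y)
  constructor
  · obtain ⟨y, hy⟩ := hd.exists_min
    have a := ((hL y).2.2.2.2.2.2.2.2.2 (Eventually.of_forall hy)).2.2 _ (ch_mem y) (mem_ch y)
    have b := a.add (psd_rsmul (hH.ev_pos y).posSemidef h0)
    rw [hD y] at b
    have c := det_mono (hu.kae.toMet.ev_pos y) (B := M.ev (M.gE H (σ * ε) v) y)
      (by simpa only [Pi.sub_apply, Pi.smul_apply, ev, sub_add_cancel] using b)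
    have d := div_le_div_of_nonneg_right c (hp y).le
    rw [← dq_eq hH, ← dq_eq hH, hu.det, hv.det, Real.exp_le_exp] at d
    linarith [hy x]
  · obtain ⟨y, hy⟩ := hd.exists_max
    have a := ((hL y).2.2.2.2.2.2.2.2.1 (Eventually.of_forall hy)).2.2 _ (ch_mem y) (mem_ch y)
    have hC0 : 0 < C := one_pos.trans_le hC
    have b := (a.add (psd_rsmul (AllOn.ch hle y) (mul_nonneg (sub_nonneg.2 hσ) hC0.le))).add
      (psd_rsmul (hu.kae.toMet.ev_pos y).posSemidef (sub_nonneg.2 hC))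
    rw [hD y] at b
    have e : ((σ * C : ℝ) : ℂ) • M.ev (M.gE H ε u) y - M.ev (M.gE H (σ * ε) v) y =
        -(M.gE H (σ * ε) v - M.gE H ε u - ((σ - 1) * ε) • H) (M.ch y) (M.ch y y) +
        ((σ - 1) * C) • (M.gE H ε u (M.ch y) (M.ch y y) - ((ε / C) • H) (M.ch y) (M.ch y y)) +
        (C - 1) • M.ev (M.gE H ε u) y := by
      have e1 : (σ - 1) * C * (ε / C) = (σ - 1) * ε := by field_simp
      simp only [Pi.sub_apply, Pi.smul_apply, ev, smul_sub, smul_smul, e1, Complex.coe_smul]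
      module
    have c := det_le_of_le (hu.kae.toMet.ev_pos y) (hv.kae.toMet.ev_pos y).posSemidef (e ▸ b)
    have d := div_le_div_of_nonneg_right c (hp y).le
    rw [mul_div_assoc, ← dq_eq hH, ← dq_eq hH, hu.det, hv.det, Fintype.card_fin] at d
    have p : 0 < σ * C := by positivity
    have f := Real.log_le_log (Real.exp_pos _) d
    rw [Real.log_mul (pow_pos p n).ne' (Real.exp_pos _).ne', Real.log_exp, Real.log_exp,
      Real.log_pow] at f
    linarith [hy x]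

theorem grad_bd (hH : M.Met H) (hε : 0 < ε) (hσ : 1 ≤ σ) (hC : 1 ≤ C) (hu : M.Sol H ε u)
    (hv : M.Sol H (σ * ε) v) (hle : M.Le ((ε / C) • H) (M.gE H ε u)) :
    ∫ x, M.gr (M.gE H ε u) (fun x => v x - u x) (fun x => v x - u x) x ∂M.mu (M.gE H ε u) ≤
      n * Real.log (σ * C) * (n * (σ * C)) * (M.mu (M.gE H ε u)).real univ := by
  have hd := hv.sm.sub hu.sm
  have hm := hu.kae.toMet
  obtain ⟨-, hf, -, -, hi, -⟩ := mMU n M _ hm
  have a := ((mGRN n M).2 _ _ _ hu.kae hd hd).2.1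
  rw [← neg_eq_iff_eq_neg] at a
  rw [← a, ← integral_neg, mul_comm, ← smul_eq_mul, ← integral_const]
  refine integral_mono (hi ℝ _ (hd.mul ((mLAP n M _ _ hd hd).2.2 _ hm).1).continuous).neg
    (integrable_const _) fun x => ?_
  obtain ⟨b1, b2⟩ := del_bd hH hε hσ hC hu hv hle x
  have hC0 : 0 < C := one_pos.trans_le hC
  have c1 := hm.tr_mono hle x
  have c2 := hm.tr_nonneg hv.kae.toMet.nonneg x
  rw [tr_smul, hm.tr_self, div_mul_eq_mul_div, div_le_iff₀ hC0] at c1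
  have c3 : -M.lap (M.gE H ε u) (fun x => v x - u x) x ≤ n * (σ * C) := by
    rw [lap, tr_congr (G' := M.gE H ε u) (fun _ _ _ _ => rfl) (hs_del hu.sm hv.sm), tr_sub, tr_sub,
      tr_smul, hm.tr_self]
    have := mul_le_mul_of_nonneg_left c1 (sub_nonneg.2 hσ)
    have := mul_le_mul_of_nonneg_left hC (n.cast_nonneg (α := ℝ))
    linarith
  have c4 := mul_le_mul_of_nonneg_right b2 (by positivity : (0 : ℝ) ≤ n * (σ * C))
  have c5 := mul_le_mul_of_nonneg_left c3 b1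
  beta_reduce
  linarith

/-- The estimate at two scales. -/
theorem ts (hH : M.Met H) (hh : M.Met h) (hε : 0 < ε) (hσ : 2 ≤ σ) (hC : 1 ≤ C)
    (hu : M.Sol H ε u) (hv : M.Sol H (σ * ε) v) (hle : M.Le ((ε / C) • H) (M.gE H ε u))
    (hs : ∀ x, ε * M.tr (M.gE H ε u) h x ≤ C)
    (hE : M.All fun e z => (en (M.gE H ε u e) (h e) (h e) z).re ≤
      M.lap (M.gE H ε u) (M.tr (M.gE H ε u) h) (e.symm z) -
        M.ip (M.gE H ε u) h (M.ric (M.gE H ε u)) (e.symm z)) {η : ℝ} (hη : 0 ≤ η)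
    (h1 : ∫ x, (σ * ε * M.tr (M.gE H (σ * ε) v) h x - ε * M.tr (M.gE H ε u) h x)
      ∂M.mu (M.gE H ε u) ≤ η * (M.mu (M.gE H ε u)).real univ) :
    ∫ x, M.yq H h ε u x ∂M.mu (M.gE H ε u) ≤
      (4 * η + 16 * (n * C) ^ 2 * (Real.log (σ * C) / σ)) * (M.mu (M.gE H ε u)).real univ := by
  have hσ1 : 1 ≤ σ := by linarith
  have g := grad_bd hH hε hσ1 hC hu hv hle
  have hr := RB.ric_sol (T := ε • H) hH hu.kae.toMet hu.det
  have hD := hs_del (H := H) (σ := σ) (ε := ε) hu.sm hv.sm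
  have hd := hv.sm.sub hu.sm
  have hk := hu.kae
  have hk1 := hv.kae.toMet
  simp only [yq]
  change M.All fun e z => M.ric (M.gE H ε u) e z = (ε • H - M.gE H ε u) e z at hr
  generalize M.gE H ε u = G at *
  generalize M.gE H (σ * ε) v = G1 at *
  generalize (fun x => v x - u x) = d at *
  have hm := hk.toMet
  obtain ⟨-, hf, -, hV, hi, -⟩ := mMU n M _ hm
  have s1 := ((mINV n M G hm).1 h hh.toTen).2.1
  have s2 := ((mINV n M G1 hk1).1 h hh.toTen).2.1
  have s3 := ((mLAP n M _ _ s1 s1).2.2 _ hm).1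
  have s4 := ((mINV n M G hm).2.2.1 h _ hh.toTen ((mHES n M).2.2.2.2.2.2.2.2.1 G hm).toTen).2.1
  have s5 := ((mINV n M G hm).2.2.1 h _ hh.toTen ((mHES n M).1 d hd).toTen).2.1
  have s6 := ((mLAP n M _ _ hd hd).2.2 _ hm).2.1
  have ht : 0 < (σ - 1) / 2 := by linarith
  have a := divq hk hh hd (s3.sub s4).continuous hE ht
  have b := ((mGRN n M).2 G _ _ hk s1 s1).1
  have i1 := hi ℝ _ ((s2.const_mul (σ * ε)).sub (s1.const_mul ε)).continuous
  have c : ∫ x, (σ - 1) * (ε * -M.ip G h (M.ric G) x) ∂M.mu G ≤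
      ∫ x, (σ * (σ * ε * M.tr G1 h x - ε * M.tr G h x) + ε * M.ip G h (M.hs d) x) ∂M.mu G := by
    refine integral_mono (hi ℝ _ ((s4.neg.const_mul ε).const_mul _).continuous)
      ((i1.const_mul σ).add (hi ℝ _ (s5.const_mul ε).continuous)) fun x => ?_
    have q : 2 * σ * M.tr G h x - σ ^ 2 * M.tr G1 h x ≤ M.ip G h G1 x :=
      opc (hm.ev_pos x) (hk1.ev_pos x) (hh.ev_pos x).posSemidef σ
    have q' := mul_le_mul_of_nonneg_left q hε.le
    beta_reduce
    rw [ip_congr (G' := G) (S' := h) (fun _ _ _ _ => rfl) (fun _ _ _ _ => rfl) hr,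
      ip_congr (G' := G) (S' := h) (fun _ _ _ _ => rfl) (fun _ _ _ _ => rfl) hD, ip_sub, ip_sub,
      ip_sub, ip_smul, ip_smul, hm.ip_self]
    linarith
  rw [integral_add (i1.const_mul σ) (hi ℝ _ (s5.const_mul ε).continuous), integral_const_mul,
    integral_const_mul, integral_const_mul, integral_const_mul, integral_neg] at c
  have e : ε * ∫ x, M.tr G h x * M.gr G d d x ∂M.mu G ≤ C * ∫ x, M.gr G d d x ∂M.mu G := by
    rw [← integral_const_mul, ← integral_const_mul]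
    refine integral_mono (hi ℝ _ ((s1.mul s6).const_mul ε).continuous)
      (hi ℝ _ (s6.const_mul C).continuous) fun x => ?_
    have := mul_le_mul_of_nonneg_right (hs x) (hm.tr_nonneg ((mHES n M).2.2.1 d hd).2 x)
    rwa [mul_assoc] at this
  rw [integral_sub (hi ℝ _ s3.continuous) (hi ℝ _ s4.continuous), b, zero_sub] at a
  rw [integral_const_mul, integral_sub (hi ℝ _ s3.continuous) (hi ℝ _ s4.continuous), b, zero_sub]
  generalize -∫ x, M.ip G h (M.ric G) x ∂M.mu G = I at *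
  generalize (M.mu G).real univ = V at *
  have hL : 0 ≤ Real.log (σ * C) := Real.log_nonneg (one_le_mul_of_one_le_of_one_le hσ1 hC)
  generalize Real.log (σ * C) = L at *
  have hC0 : 0 < C := one_pos.trans_le hC
  have a1 := mul_le_mul_of_nonneg_left a hε.le
  have a2 := mul_le_mul_of_nonneg_left (e.trans (mul_le_mul_of_nonneg_left g hC0.le))
    (inv_pos.2 ht).le
  have a3 := mul_le_mul_of_nonneg_left h1 (zero_le_one.trans hσ1)
  have a4 : ((σ - 1) / 2)⁻¹ ≤ 4 / σ := by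
    rw [inv_le_comm₀ ht (by positivity), inv_div]
    linarith
  have p : 0 ≤ C * (n * L * (n * (σ * C)) * V) := by positivity
  have a5 := mul_le_mul_of_nonneg_right a4 p
  have a6 : 4 / σ * (C * (n * L * (n * (σ * C)) * V)) = 4 * (n * C) ^ 2 * L * V := by field_simp
  have a7 : (σ - 1) / 2 * (ε * I) ≤ σ * (η * V) + 4 * (n * C) ^ 2 * L * V := by linarith
  have a8 : σ * (η * V) + 4 * (n * C) ^ 2 * L * V =
      σ / 4 * ((4 * η + 16 * (n * C) ^ 2 * (L / σ)) * V) := by field_simp; ring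
  have p' : 0 ≤ (4 * η + 16 * (n * C) ^ 2 * (L / σ)) * V := by positivity
  rw [a8] at a7
  exact le_of_mul_le_mul_left (a7.trans (mul_le_mul_of_nonneg_right (by linarith) p')) ht

end Pool.Agent.Lib.RB14
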